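import Pool.Agent.L0h46.CY.Stm

/-!
# Project CY: growth and zeros of polynomials (modules GRW and SZ; helper56)
-/

set_option autoImplicit false
set_option linter.all false

namespace Pool.Agent.L0h56.CY

open Finset
open Pool.Agent.L0h46.CY

theorem t_GRW : S_GRW := by
  intro n Φ
  refine ⟨∑ d ∈ Φ.support, (Φ.coeff d).natAbs, ?_⟩
  intro B z hB hz
  rw [MvPolynomial.eval_eq']
  push_cast
  refine (Finset.abs_sum_le_sum_abs _ _).trans ?_
  rw [Finset.sum_mul]
  refine Finset.sum_le_sum fun d hd => ?_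
  rw [abs_mul, Finset.abs_prod]
  have h1 : ∏ i, |((z i : ℝ)) ^ d i| ≤ B ^ Φ.totalDegree := by
    calc ∏ i, |((z i : ℝ)) ^ d i| ≤ ∏ i, B ^ d i := by
          refine Finset.prod_le_prod (fun i _ => abs_nonneg _) fun i _ => ?_
          rw [abs_pow]
          exact pow_le_pow_left₀ (abs_nonneg _) (hz i) _
      _ = B ^ (∑ i, d i) := Finset.prod_pow_eq_pow_sum _ _ _
      _ ≤ B ^ Φ.totalDegree := by
          apply pow_le_pow_right₀ hB
          have h2 := MvPolynomial.le_totalDegree hd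
          rwa [Finsupp.sum_fintype _ _ (fun _ => rfl)] at h2
  have h3 : |((Φ.coeff d : ℤ) : ℝ)| = (((Φ.coeff d).natAbs : ℕ) : ℝ) := by
    rw [Nat.cast_natAbs, Int.cast_abs]
  rw [h3]
  exact mul_le_mul_of_nonneg_left h1 (Nat.cast_nonneg _)

theorem t_SZ : S_SZ := by
  intro n Φ hΦ
  classical
  refine ⟨(Φ.totalDegree + 1) * 3 ^ n, by positivity, ?_⟩
  intro B hB E hE
  set b : ℤ := ⌊B⌋ with hb
  have hb1 : 1 ≤ b := Int.le_floor.mpr (by exact_mod_cast hB)
  set S : Finset ℤ := Finset.Icc (-b) b with hS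
  have hcard : (S.card : ℤ) = 2 * b + 1 := by
    rw [hS, Int.card_Icc]
    rw [Int.toNat_of_nonneg (by omega)]
    ring
  have hbB : (b : ℝ) ≤ B := Int.floor_le B
  have hBb : B < b + 1 := Int.lt_floor_add_one B
  have hcardr : (S.card : ℝ) = 2 * b + 1 := by exact_mod_cast hcard
  have hSB : B ≤ S.card := by
    rw [hcardr]
    have : (1 : ℝ) ≤ b := by exact_mod_cast hb1
    linarith
  have hS3 : (S.card : ℝ) ≤ 3 * B := by
    rw [hcardr]
    linarith
  have hB0 : 0 < B := by linarith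
  have hS0 : (0 : ℝ) < S.card := by linarith
  have hsub : E ⊆ (Fintype.piFinset fun _ => S).filter (fun f => MvPolynomial.eval f Φ = 0) := by
    intro z hz
    obtain ⟨h1, h2⟩ := hE z hz
    rw [Finset.mem_filter, Fintype.mem_piFinset]
    refine ⟨fun i => ?_, h2⟩
    have h3 := abs_le.mp (h1 i)
    rw [hS, Finset.mem_Icc]
    constructor
    · have h4 : -(z i) ≤ b := Int.le_floor.mpr (by push_cast; linarith)
      linarith
    · exact Int.le_floor.mpr h3.2
  have hsz := MvPolynomial.schwartz_zippel_totalDegree hΦ S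
  have hsz' : ((((Fintype.piFinset fun _ => S).filter (fun f => MvPolynomial.eval f Φ = 0)).card : ℝ)) /
      (S.card : ℝ) ^ n ≤ Φ.totalDegree / S.card := by
    have h := (NNRat.cast_le (K := ℝ)).mpr hsz
    push_cast at h
    exact h
  rw [div_le_div_iff₀ (by positivity) hS0] at hsz'
  have h5 : (E.card : ℝ) * S.card ≤ Φ.totalDegree * (S.card : ℝ) ^ n := by
    refine le_trans (mul_le_mul_of_nonneg_right ?_ hS0.le) hsz'
    exact_mod_cast Finset.card_le_card hsub
  rw [le_div_iff₀ hB0]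
  calc (E.card : ℝ) * B ≤ E.card * S.card := by gcongr
    _ ≤ Φ.totalDegree * (S.card : ℝ) ^ n := h5
    _ ≤ (Φ.totalDegree + 1) * (3 * B) ^ n := by
        gcongr
        linarith
    _ = (Φ.totalDegree + 1) * 3 ^ n * B ^ n := by rw [mul_pow]; ring

end Pool.Agent.L0h56.CY
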